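import Pool.Agent.H918.G.Geo
import Pool.Agent.H918.D.Kob
import Pool.Agent.H918.E.Geo0
import Pool.Graph.R_pool_sql_team_seeded_63374d34.N154.DD.KGeo

/-! PF3-BRO: in a Brody hyperbolic projective set, the derivatives near the centre of the compositions
of holomorphic discs with a map to an elliptic curve are bounded uniformly. -/

set_option autoImplicit false

namespace Pool.Agent.H918.PF.H230

open Filter Topology Metric Set
open Pool.Agent.Y190.OP Pool.Agent.N154.GG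

variable {N : ℕ}

/-- discs in a compact set without entire curves, at the centre -/
theorem center_bd {T : Set (Mat N)} (hTc : IsCompact T) (hTP : T ⊆ PM)
    (hno : ∀ H : ℂ → Mat N, HolP univ H → (∀ z, H z ∈ T) → ∀ z, H z = H 0) :
    ∃ C : ℝ, 0 < C ∧ ∀ P : ℂ → Mat N, HolP (ball 0 1) P → (∀ z ∈ ball (0 : ℂ) 1, P z ∈ T) →
      ‖fderiv ℝ P 0‖ ≤ C := by
  by_contra hcon
  push Not at hcon
  have h1 : ∀ n : ℕ, ∃ h : ℂ → Mat N, HolP (ball 0 (n + 1 : ℝ)) h ∧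
      (∀ z ∈ ball (0 : ℂ) (n + 1 : ℝ), h z ∈ T) ∧
      (∀ z ∈ ball (0 : ℂ) ((n + 1 : ℝ) / 2), ‖fderiv ℝ h z‖ ≤ 2) ∧ ‖fderiv ℝ h 0‖ = 1 := by
    intro n
    obtain ⟨P, hP, hPT, hbig⟩ := hcon (2 * (n + 1 : ℝ)) (by positivity)
    exact rescale (by positivity) hP hPT hbig
  choose h hH hHS hHd hH0 using h1
  set 𝓤 : Ultrafilter ℕ := hyperfilter ℕ with h𝓤
  have hcof : ∀ R : ℝ, ∀ᶠ n : ℕ in (𝓤 : Filter ℕ), R ≤ n := by
    intro R
    have h2 : ∀ᶠ n : ℕ in atTop, R ≤ n := by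
      filter_upwards [eventually_ge_atTop ⌈R⌉₊] with n hn
      exact (Nat.le_ceil R).trans (by exact_mod_cast hn)
    have h3 : (𝓤 : Filter ℕ) ≤ atTop := by
      rw [← Nat.cofinite_eq_atTop]
      exact hyperfilter_le_cofinite
    exact h3 h2
  have hlim : ∀ z : ℂ, ∃ y ∈ T, Tendsto (fun n => h n z) 𝓤 (𝓝 y) := by
    intro z
    have h2 : ∀ᶠ n in (𝓤 : Filter ℕ), h n z ∈ T := by
      filter_upwards [hcof ‖z‖] with n hn
      exact hHS n z (mem_ball_zero_iff.2 (by linarith))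
    obtain ⟨y, hy, hle⟩ := hTc.ultrafilter_le_nhds' (𝓤.map fun n => h n z) h2
    exact ⟨y, hy, hle⟩
  choose H hHmem hHt using hlim
  have hCC : ∀ R : ℝ, 0 < R → CConv (𝓤 : Filter ℕ) (ball 0 R) h H := by
    intro R hR z hz
    rw [Metric.tendsto_nhds]
    intro ε hε
    have h2 := Metric.tendsto_nhds.1 (hHt z) (ε / 2) (by positivity)
    have h3 := hcof (2 * R)
    rw [eventually_prod_iff]
    refine ⟨_, h2.and h3, fun w => w ∈ ball (0 : ℂ) R ∧ dist w z < ε / 4, ?_, ?_⟩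
    · have h4 : ∀ᶠ w in 𝓝 z, w ∈ ball (0 : ℂ) R := isOpen_ball.mem_nhds hz
      have h5 : ∀ᶠ w in 𝓝 z, dist w z < ε / 4 := ball_mem_nhds z (by positivity)
      exact h4.and h5
    · rintro n ⟨hn1, hn2⟩ w ⟨hw1, hw2⟩
      have h6 : ‖h n w - h n z‖ ≤ 2 * ‖w - z‖ := by
        have hsub : ball (0 : ℂ) R ⊆ ball (0 : ℂ) ((n + 1 : ℝ) / 2) :=
          ball_subset_ball (by linarith)
        have hsub2 : ball (0 : ℂ) R ⊆ ball (0 : ℂ) (n + 1 : ℝ) :=
          ball_subset_ball (by linarith)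
        exact (convex_ball (0 : ℂ) R).norm_image_sub_le_of_norm_fderiv_le
          (fun x hx => (hH n).differentiableAt (hsub2 hx))
          (fun x hx => hHd n x (hsub hx)) hz hw1
      calc dist (h n w) (H z) ≤ dist (h n w) (h n z) + dist (h n z) (H z) := dist_triangle _ _ _
        _ < ε / 2 + ε / 2 := by
            refine add_lt_add ?_ hn1
            rw [dist_eq_norm]
            rw [dist_eq_norm] at hw2
            linarith
        _ = ε := by ring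
  have hev : ∀ R : ℝ, 0 < R → ∀ᶠ n in (𝓤 : Filter ℕ), HolP (ball 0 R) (h n) := by
    intro R _
    filter_upwards [hcof R] with n hn
    exact (hH n).mono (ball_subset_ball (by linarith))
  have hl := fun (R : ℝ) (hR : 0 < R) => holP_limit isOpen_ball (hCC R hR)
    (hev R hR) (fun z _ => hTP (hHmem z))
  have hHol : HolP univ H := by
    intro z _
    exact (hl (‖z‖ + 1) (by positivity)).1 z (mem_ball_zero_iff.2 (by linarith))
  have hc := hno H hHol hHmem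
  have hc1 : fderiv ℝ H 0 = 0 := by
    have : H = fun _ => H 0 := funext fun z => hc z
    rw [this]; simp
  have ht := (hl 1 one_pos).2 0 (mem_ball_self one_pos)
  rw [hc1] at ht
  have e1 := (ht.norm).eventually_lt_const (u := 1) (by simp)
  obtain ⟨n, hn⟩ := e1.exists
  rw [hH0 n] at hn
  exact lt_irrefl _ hn

/-- discs in a compact set without entire curves, near the centre -/
theorem half_bd {T : Set (Mat N)} (hTc : IsCompact T) (hTP : T ⊆ PM)
    (hno : ∀ H : ℂ → Mat N, HolP univ H → (∀ z, H z ∈ T) → ∀ z, H z = H 0) :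
    ∃ C : ℝ, 0 < C ∧ ∀ P : ℂ → Mat N, HolP (ball 0 1) P → (∀ z ∈ ball (0 : ℂ) 1, P z ∈ T) →
      ∀ t ∈ ball (0 : ℂ) (1 / 2), ‖fderiv ℝ P t‖ ≤ C := by
  obtain ⟨C, hC, h⟩ := center_bd hTc hTP hno
  refine ⟨2 * C, by positivity, fun P hP hPT t ht => ?_⟩
  rw [mem_ball_zero_iff] at ht
  have hsub : ball (0 : ℂ) 1 ⊆ aff t (1 / 2) ⁻¹' ball (0 : ℂ) 1 := by
    intro z hz
    rw [mem_preimage, mem_ball_zero_iff]
    rw [mem_ball_zero_iff] at hz
    unfold aff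
    refine (norm_add_le _ _).trans_lt ?_
    rw [norm_mul, Complex.norm_real, Real.norm_of_nonneg (by norm_num)]
    linarith
  have h1 := h (fun z => P (aff t (1 / 2) z)) ((hP.aff t (1 / 2)).mono hsub)
    (fun z hz => hPT _ (hsub hz))
  have h0 : aff t (1 / 2) 0 = t := by simp [aff]
  have h2 := norm_fderiv_aff (Ψ := P) (a := t) (ρ := 1 / 2) (by norm_num) (z := 0) (by
    rw [h0]; exact hP.differentiableAt (mem_ball_zero_iff.2 (by linarith)))
  rw [h0] at h2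
  rw [h2] at h1
  linarith

/-- the derivative of a lift -/
theorem lift_bd {T : Set (Mat N)} {Λ : AddSubgroup ℂ} {a : Mat N → ℂ} (hT : TD T Λ a) {L : ℝ}
    (hL : 1 ≤ L) (hlip : ∀ M ∈ T, ∀ M' ∈ T, ∃ l ∈ Λ, ‖a M - a M' - l‖ ≤ L * ‖M - M'‖)
    {U : Set ℂ} (hU : IsOpen U) {P : ℂ → Mat N} (hP : HolP U P) (hPT : ∀ z ∈ U, P z ∈ T) {t : ℂ}
    (ht : t ∈ U) {β : ℂ → ℂ} (hβ : DifferentiableAt ℂ β t)
    (hβe : ∀ᶠ w in 𝓝 t, a (P w) - β w ∈ Λ) : ‖deriv β t‖ ≤ L * (‖fderiv ℝ P t‖ + 1) := by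
  obtain ⟨δ, hδ, hd⟩ := hT.disc
  have hL0 : 0 < L := by linarith
  have hPd := hP.differentiableAt ht
  have h1 : ∀ᶠ w in 𝓝 t, ‖β w - β t‖ < δ / 2 := by
    filter_upwards [Metric.tendsto_nhds.1 hβ.continuousAt (δ / 2) (by positivity)] with w hw
    rwa [dist_eq_norm] at hw
  have h2 : ∀ᶠ w in 𝓝 t, ‖P w - P t‖ < δ / (2 * L) := by
    filter_upwards [Metric.tendsto_nhds.1 hPd.continuousAt (δ / (2 * L)) (by positivity)] with w hw
    rwa [dist_eq_norm] at hw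
  have h3 : ∀ᶠ w in 𝓝 t, ‖P w - P t‖ ≤ (‖fderiv ℝ P t‖ + 1) * ‖w - t‖ := by
    have h4 := hPd.hasFDerivAt.isLittleO.def (c := 1) one_pos
    filter_upwards [h4] with w hw
    have h5 : P w - P t = (P w - P t - (fderiv ℝ P t) (w - t)) + (fderiv ℝ P t) (w - t) := by
      abel
    rw [h5]
    refine (norm_add_le _ _).trans ?_
    have h6 := (fderiv ℝ P t).le_opNorm (w - t)
    linarith
  refine HasDerivAt.le_of_lip' hβ.hasDerivAt (by positivity) ?_
  filter_upwards [h1, h2, h3, hβe, hU.mem_nhds ht] with w w1 w2 w3 w4 w5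
  obtain ⟨l, hl, hl'⟩ := hlip _ (hPT w w5) _ (hPT t ht)
  have h4 : a (P w) - a (P t) - l - (β w - β t) ∈ Λ := by
    have h5 := Λ.sub_mem (Λ.sub_mem w4 hβe.self_of_nhds) hl
    have h6 : a (P w) - a (P t) - l - (β w - β t) = a (P w) - β w - (a (P t) - β t) - l := by
      ring
    rw [h6]
    exact h5
  have h5 : L * ‖P w - P t‖ < δ / 2 := by
    have h6 := mul_lt_mul_of_pos_left w2 hL0
    have h7 : L * (δ / (2 * L)) = δ / 2 := by field_simp
    rwa [h7] at h6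
  have h6 := hd _ h4 (by
    refine (norm_sub_le _ _).trans_lt ?_
    linarith)
  have h7 : β w - β t = a (P w) - a (P t) - l := (sub_eq_zero.1 h6).symm
  rw [h7]
  refine hl'.trans ?_
  rw [mul_assoc]
  exact mul_le_mul_of_nonneg_left w3 hL0.le

end Pool.Agent.H918.PF.H230

namespace Pool.Agent.H918.PF.H230

open Filter Topology Metric Set LinearAlgebra.Projectivization
open FF Pool.Agent.Y190.OP Pool.Agent.W602.GT Pool.Agent.N154.GG Pool.Agent.H918.SS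

variable {n : ℕ} {ι : Type} {F : ι → MvPolynomial (Fin (n + 1)) ℂ} {Λ : PeriodPair}
  {α : (Fin (n + 1) → ℂ) → ℂ ⧸ Λ.lattice}

theorem main (hF : ∀ i, IsForm (F i)) (hα : HolToTorus (Cone F) Λ α)
    (hBr : ∀ f, HolIn F f → ∀ z w, f z = f w) :
    ∃ κ K : ℝ, 0 < κ ∧ κ ≤ 1 ∧ 0 ≤ K ∧ ∀ f : ℂ → ℙ ℂ (Fin (n + 1) → ℂ), HolMapOn (ball 0 1) f →
      (∀ z ∈ ball (0 : ℂ) 1, (f z).rep ∈ Cone F) → ∀ t ∈ ball (0 : ℂ) κ,
        ∀ β : ℂ → ℂ, AnalyticAt ℂ β t →
          (∀ᶠ w in 𝓝 t, α (f w).rep = Submodule.Quotient.mk (β w)) → ‖deriv β t‖ ≤ K := by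
  have hT := tdF hF hα
  obtain ⟨L1, hL1, hlip⟩ := TD.lip hT
  obtain ⟨C, hC, hbd⟩ := half_bd hT.comp hT.sub (fun H hH hHT z => by
    have h1 := hBr (fun z => toProj (H z)) ⟨holMap_of hH, fun z => rep_toProjF hF (hHT z)⟩ z 0
    have h2 := congrArg (fun p : ℙ ℂ (Fin (n + 1) → ℂ) => Phi p.rep) h1
    change Phi (toProj (H z)).rep = Phi (toProj (H 0)).rep at h2
    rwa [Phi_rep_toProj (TF_PM (hHT z)), Phi_rep_toProj (TF_PM (hHT 0))] at h2)
  have hL0 : 0 < L1 := by linarith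
  refine ⟨1 / 2, L1 * (C + 1), by norm_num, by norm_num, by positivity,
    fun f hf hfF t ht β hβ hβe => ?_⟩
  have hP : HolP (ball 0 1) fun z => Phi (f z).rep := holP_of_on hf
  have hPT : ∀ z ∈ ball (0 : ℂ) 1, Phi (f z).rep ∈ TF F := fun z hz => mem_TF (hfF z hz)
  have ht1 : t ∈ ball (0 : ℂ) 1 := ball_subset_ball (by norm_num) ht
  refine (lift_bd hT hL1 hlip isOpen_ball hP hPT ht1 hβ.differentiableAt ?_).trans
    (mul_le_mul_of_nonneg_left (by linarith [hbd _ hP hPT t ht]) hL0.le)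
  filter_upwards [hβe, isOpen_ball.mem_nhds ht1] with w hw hw1
  rw [mem_La_iff, aM_Phi hα (hfF w hw1), hw]

end Pool.Agent.H918.PF.H230

open FF Pool.Agent.W603.LV Pool.Agent.W603.PV Pool.Agent.W602.GT Pool.Agent.N154.GG
open Filter Topology Metric
open Pool.Agent.W602.RG (HasValue PointedMaps)
open Pool.Agent.Y216 (OnVar)
open Pool.Agent.H918.SS (ProjVariety HasReduction)
open scoped LinearAlgebra.Projectivization

namespace Pool.Agent.H918.PF

variable {L : Type} [Field L] [Algebra ℂ L] {c : Place ℂ L} {n : ℕ} {ι : Type}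
  {F : ι → MvPolynomial (Fin (n + 1)) ℂ} {Λ : PeriodPair}
  {α : (Fin (n + 1) → ℂ) → ℂ ⧸ Λ.lattice} {K : Type} [Field K] [Algebra ℂ K]
  {y : Fin (n + 1) → K}

/-- PF3-BRO: in a Brody hyperbolic projective set, the derivatives near the centre of the compositions
of holomorphic discs with a map to an elliptic curve are bounded uniformly. -/
theorem disc_deriv_all (hF : ∀ i, IsForm (F i)) (hα : HolToTorus (Cone F) Λ α)
    (hBr : ∀ f, HolIn F f → ∀ z w, f z = f w) :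
    ∃ κ K : ℝ, 0 < κ ∧ κ ≤ 1 ∧ 0 ≤ K ∧ ∀ f : ℂ → ℙ ℂ (Fin (n + 1) → ℂ), HolMapOn (ball 0 1) f →
      (∀ z ∈ ball (0 : ℂ) 1, (f z).rep ∈ Cone F) → ∀ t ∈ ball (0 : ℂ) κ,
        ∀ β : ℂ → ℂ, AnalyticAt ℂ β t →
          (∀ᶠ w in 𝓝 t, α (f w).rep = Submodule.Quotient.mk (β w)) → ‖deriv β t‖ ≤ K :=
  H230.main hF hα hBr

end Pool.Agent.H918.PF
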